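import Mathlib

namespace Pool.Agent.Results.MP_709eaf_lc.Q1

open List

/-- `Ins [a₁,…,aₙ] u v`: `u = u₁⋯uₙuₙ₊₁` and `v = u₁a₁u₂a₂⋯uₙaₙuₙ₊₁` -/
inductive Ins {A : Type} : List A → List A → List A → Prop
  | nil (u : List A) : Ins [] u u
  | cons (u₁ : List A) (a : A) {w u v : List A} :
      Ins w u v → Ins (a :: w) (u₁ ++ u) (u₁ ++ a :: v)

/-- `u ⊢_I v` -/
def Step {A : Type} (I : Finset (List A)) (u v : List A) : Prop := ∃ w ∈ I, Ins w u v

/-- `L_I` -/
def L {A : Type} (I : Finset (List A)) : Language A :=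
  {u | Relation.ReflTransGen (Step I) [] u}

/-- `⊢_I^*` is a well quasi-order on `L_I` -/
def WqoOn {A : Type} (I : Finset (List A)) : Prop :=
  ∀ f : ℕ → List A, (∀ n, f n ∈ L I) → ∃ i j, i < j ∧ Relation.ReflTransGen (Step I) (f i) (f j)

def I : Finset (List (Fin 3)) := ([0, 1, 2] : List (Fin 3)).permutations.toFinset

lemma mem_I {w : List (Fin 3)} : w ∈ I ↔ w ~ [0, 1, 2] := by simp [I]

lemma Ins.count {w u v : List (Fin 3)} (h : Ins w u v) (x : Fin 3) :
    v.count x = u.count x + w.count x := by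
  induction h with
  | nil u => simp
  | cons u₁ a h ih =>
    simp only [count_append, count_cons, ih]
    omega

lemma ins_one {u v : List (Fin 3)} (h : u <+ v) (x : Fin 3) (hx : u.count x < v.count x) :
    ∃ u₁ u₂, u = u₁ ++ u₂ ∧ u₁ ++ x :: u₂ <+ v := by
  induction h with
  | slnil => simp at hx
  | @cons l₁ l₂ a h ih =>
    by_cases ha : a = x
    · subst ha
      exact ⟨[], l₁, rfl, h.cons_cons a⟩
    · obtain ⟨u₁, u₂, e, hs⟩ := ih (by simpa [count_cons, ha] using hx)
      exact ⟨u₁, u₂, e, hs.cons a⟩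
  | @cons_cons l₁ l₂ a h ih =>
    obtain ⟨u₁, u₂, e, hs⟩ := ih (by simp only [count_cons] at hx; omega)
    exact ⟨a :: u₁, u₂, by simp [e], hs.cons_cons a⟩

lemma Ins.insert {w u v : List (Fin 3)} (h : Ins w u v) (x : Fin 3) :
    ∀ v₁ v₂, v = v₁ ++ v₂ → ∃ w', w' ~ x :: w ∧ Ins w' u (v₁ ++ x :: v₂) := by
  induction h with
  | nil u =>
    rintro v₁ v₂ rfl
    exact ⟨[x], Perm.refl _, Ins.cons v₁ x (Ins.nil v₂)⟩
  | @cons u₁ a w u v h ih =>
    intro v₁ v₂ e
    have case2 : ∀ t, u₁ = v₁ ++ t → v₂ = t ++ a :: v →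
        ∃ w', w' ~ x :: a :: w ∧ Ins w' (u₁ ++ u) (v₁ ++ x :: v₂) := by
      rintro t rfl rfl
      refine ⟨x :: a :: w, Perm.refl _, ?_⟩
      rw [append_assoc]
      exact Ins.cons v₁ x (Ins.cons t a h)
    rcases append_eq_append_iff.mp e with ⟨t, h1, h2⟩ | ⟨t, h1, h2⟩
    · rcases t with _ | ⟨b, t⟩
      · exact case2 [] (by simpa using h1.symm) (by simpa using h2.symm)
      · simp only [cons_append, cons.injEq] at h2
        obtain ⟨rfl, h2⟩ := h2
        obtain ⟨w', p, q⟩ := ih t v₂ h2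
        refine ⟨a :: w', (p.cons a).trans (Perm.swap _ _ _), ?_⟩
        rw [h1, append_assoc]
        exact Ins.cons u₁ a q
    · exact case2 t h1 h2

lemma reach (k : ℕ) : ∀ u v : List (Fin 3), u <+ v → (∀ x, v.count x = u.count x + k) →
    Relation.ReflTransGen (Step I) u v := by
  induction k with
  | zero =>
    intro u v h hc
    have : u = v := h.eq_of_length (perm_iff_count.mpr fun x => (hc x).symm).length_eq
    rw [this]
  | succ k ih =>
    intro u v h hc
    obtain ⟨a₁, a₂, e1, s1⟩ := ins_one h 2 (by rw [hc]; omega)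
    obtain ⟨w1, p1, i1⟩ := (Ins.nil u).insert 2 a₁ a₂ e1
    obtain ⟨b₁, b₂, e2, s2⟩ := ins_one s1 1 (by rw [hc, i1.count, p1.count_eq]; simp)
    obtain ⟨w2, p2, i2⟩ := i1.insert 1 b₁ b₂ e2
    have p2' := p2.trans (p1.cons 1)
    obtain ⟨c₁, c₂, e3, s3⟩ := ins_one s2 0 (by rw [hc, i2.count, p2'.count_eq]; simp)
    obtain ⟨w3, p3, i3⟩ := i2.insert 0 c₁ c₂ e3
    have p3' := p3.trans (p2'.cons 0)
    refine Relation.ReflTransGen.head ⟨w3, mem_I.mpr p3', i3⟩ (ih _ _ s3 fun x => ?_)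
    rw [hc, i3.count, p3'.count_eq]
    have : ∀ y : Fin 3, count y ([0, 1, 2] : List (Fin 3)) = 1 := by decide
    rw [this]
    omega

lemma mem_L {u : List (Fin 3)} : u ∈ L I ↔ ∃ k, ∀ x, u.count x = k := by
  constructor
  · intro h
    induction h with
    | refl => exact ⟨0, by simp⟩
    | tail _ h ih =>
      obtain ⟨k, hk⟩ := ih
      obtain ⟨w, hw, hi⟩ := h
      refine ⟨k + 1, fun x => ?_⟩
      have : ∀ y : Fin 3, count y ([0, 1, 2] : List (Fin 3)) = 1 := by decide
      rw [hi.count, hk, (mem_I.mp hw).count_eq, this]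
  · rintro ⟨k, hk⟩
    exact reach k [] u (nil_sublist u) (by simpa using hk)

section
variable {T : Type} (g : ContextFreeGrammar T)

inductive Gen : List (Symbol T g.NT) → List T → Prop
  | nil : Gen [] []
  | term (t : T) {s w} : Gen s w → Gen (Symbol.terminal t :: s) (t :: w)
  | nt (r : ContextFreeRule T g.NT) {s w₁ w₂} : r ∈ g.rules → Gen r.output w₁ → Gen s w₂ →
      Gen (Symbol.nonterminal r.input :: s) (w₁ ++ w₂)

variable {g}

lemma Gen.append {s s' w w'} (h : Gen g s w) (h' : Gen g s' w') : Gen g (s ++ s') (w ++ w') := by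
  induction h with
  | nil => exact h'
  | term t _ ih => exact Gen.term t ih
  | nt r hr h1 _ _ ih =>
    rw [append_assoc]
    exact Gen.nt r hr h1 ih

lemma Gen.split (s : List (Symbol T g.NT)) : ∀ {s' w}, Gen g (s ++ s') w →
    ∃ w₁ w₂, w = w₁ ++ w₂ ∧ Gen g s w₁ ∧ Gen g s' w₂ := by
  induction s with
  | nil => exact fun h => ⟨[], _, rfl, Gen.nil, h⟩
  | cons a s ih =>
    intro s' w h
    cases h with
    | term t h =>
      obtain ⟨w₁, w₂, rfl, h1, h2⟩ := ih h
      exact ⟨t :: w₁, w₂, rfl, Gen.term t h1, h2⟩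
    | nt r hr h0 h =>
      obtain ⟨w₁, w₂, rfl, h1, h2⟩ := ih h
      exact ⟨_ ++ w₁, w₂, (append_assoc _ _ _).symm, Gen.nt r hr h0 h1, h2⟩

lemma Gen.derives {s w} (h : Gen g s w) : g.Derives s (w.map Symbol.terminal) := by
  induction h with
  | nil => exact Relation.ReflTransGen.refl
  | term t _ ih => exact ih.append_left [Symbol.terminal t]
  | @nt r s w₁ w₂ hr _ _ ih1 ih2 =>
    rw [map_append]
    have h0 : g.Produces (Symbol.nonterminal r.input :: s) (r.output ++ s) :=
      ⟨r, hr, ContextFreeRule.Rewrites.head s⟩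
    exact h0.trans_derives ((ih1.append_right s).trans (ih2.append_left _))

lemma gen_of_derives {s} {w : List T} (h : g.Derives s (w.map Symbol.terminal)) : Gen g s w := by
  induction h using Relation.ReflTransGen.head_induction_on with
  | refl =>
    induction w with
    | nil => exact Gen.nil
    | cons t w ih => exact Gen.term t ih
  | head h _ ih =>
    obtain ⟨r, hr, h⟩ := h
    obtain ⟨p, q, rfl, rfl⟩ := h.exists_parts
    obtain ⟨w₁, w₂, rfl, h1, h2⟩ := Gen.split _ ih
    obtain ⟨w₃, w₄, rfl, h3, h4⟩ := Gen.split _ h1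
    rw [append_assoc, append_assoc]
    exact h3.append (Gen.nt r hr h4 h2)

lemma mid (m K : ℕ) (hK : 1 ≤ K) (hm : ∀ r ∈ g.rules, r.output.length ≤ m) {s w} (h : Gen g s w) :
    ∀ x y, (∀ w', Gen g s w' → x ++ w' ++ y ∈ g.language) → s.length * K < w.length →
      ∃ r ∈ g.rules, ∃ p w₀ q, w = p ++ w₀ ++ q ∧ Gen g r.output w₀ ∧ K < w₀.length ∧
        w₀.length ≤ m * K ∧ ∃ x' y', ∀ w', Gen g r.output w' → x' ++ w' ++ y' ∈ g.language := by
  induction h with
  | nil => intro x y _ h; simp at h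
  | @term t s w h ih =>
    intro x y hc hl
    obtain ⟨r, hr, p, w₀, q, rfl, hh⟩ := ih (x ++ [t]) y
      (fun w' hw' => by simpa using hc _ (Gen.term t hw'))
      (by simp only [length_cons, add_mul] at hl; omega)
    exact ⟨r, hr, t :: p, w₀, q, rfl, hh⟩
  | @nt r s w₁ w₂ hr h1 h2 ih1 ih2 =>
    intro x y hc hl
    have hc1 : ∀ w', Gen g r.output w' → x ++ w' ++ (w₂ ++ y) ∈ g.language :=
      fun w' hw' => by simpa using hc _ (Gen.nt r hr hw' h2)
    by_cases a1 : K < w₁.length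
    · by_cases a2 : w₁.length ≤ m * K
      · exact ⟨r, hr, [], w₁, w₂, rfl, h1, a1, a2, x, w₂ ++ y, hc1⟩
      · obtain ⟨r', hr', p, w₀, q, rfl, hh⟩ := ih1 x (w₂ ++ y) hc1
          (lt_of_le_of_lt (Nat.mul_le_mul_right K (hm r hr)) (not_le.mp a2))
        exact ⟨r', hr', p, w₀, q ++ w₂, by simp, hh⟩
    · obtain ⟨r', hr', p, w₀, q, rfl, hh⟩ := ih2 (x ++ w₁) y
        (fun w' hw' => by simpa using hc _ (Gen.nt r hr h1 hw'))
        (by simp only [length_cons, add_mul, length_append] at hl; omega)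
      exact ⟨r', hr', w₁ ++ p, w₀, q, by simp, hh⟩

end

lemma len3 (w : List (Fin 3)) : w.length = w.count 0 + w.count 1 + w.count 2 := by
  induction w with
  | nil => rfl
  | cons a w ih =>
    fin_cases a <;> simp [ih] <;> omega

theorem result : ∃ (A : Type) (_ : Fintype A) (I : Finset (List A)),
    (∀ w ∈ I, w ≠ []) ∧ WqoOn I ∧ ¬ (L I).IsContextFree := by
  classical
  refine ⟨Fin 3, inferInstance, I, ?_, ?_, ?_⟩
  · rintro w hw rfl
    simpa using (mem_I.mp hw).length_eq
  · intro f hf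
    have h := (Set.finite_univ (α := Fin 3)).partiallyWellOrderedOn (r := (· = ·))
    obtain ⟨i, j, hij, hs⟩ := Set.partiallyWellOrderedOn_iff_exists_lt.mp
      (h.partiallyWellOrderedOn_sublistForall₂ (· = ·)) f (fun _ _ _ => trivial)
    obtain ⟨l, h1, h2⟩ := sublistForall₂_iff.mp hs
    rw [forall₂_eq_eq_eq] at h1
    subst h1
    obtain ⟨a, ha⟩ := mem_L.mp (hf i)
    obtain ⟨b, hb⟩ := mem_L.mp (hf j)
    have : a ≤ b := by
      rw [← ha 0, ← hb 0]
      exact h2.count_le 0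
    exact ⟨i, j, hij, reach (b - a) _ _ h2 fun x => by rw [ha, hb]; omega⟩
  · rintro ⟨g, hg⟩
    let pick : ContextFreeRule (Fin 3) g.NT → List (Fin 3) := fun r =>
      if h : ∃ w, Gen g r.output w then h.choose else []
    obtain ⟨B, hB⟩ : ∃ B, ∀ r ∈ g.rules, (pick r).length ≤ B :=
      ⟨g.rules.sup (fun r => (pick r).length),
        fun r hr => Finset.le_sup (f := fun r => (pick r).length) hr⟩
    obtain ⟨m, hm⟩ : ∃ m, ∀ r ∈ g.rules, r.output.length ≤ m :=
      ⟨g.rules.sup (fun r => r.output.length),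
        fun r hr => Finset.le_sup (f := fun r => r.output.length) hr⟩
    obtain ⟨n, hn⟩ : ∃ n, n = m * (2 * B + 1) + (2 * B + 1) := ⟨_, rfl⟩
    have hW : (replicate n 0 ++ replicate n 1 ++ replicate n 2 : List (Fin 3)) ∈ g.language := by
      rw [hg, mem_L]
      refine ⟨n, fun x => ?_⟩
      fin_cases x <;> simp [count_replicate]
    obtain ⟨r, hr, p, w₀, q, e, hw, l1, l2, x, y, hc⟩ := mid m (2 * B + 1) (by omega) hm
      (gen_of_derives hW) [] [] (fun w' hw' => by simpa using hw'.derives)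
      (by simp only [length_append, length_replicate, length_singleton]; omega)
    have hp : Gen g r.output (pick r) := by
      have h : ∃ w, Gen g r.output w := ⟨w₀, hw⟩
      simp only [pick, dif_pos h]
      exact h.choose_spec
    have c1 := hc _ hw
    have c2 := hc _ hp
    rw [hg, mem_L] at c1 c2
    obtain ⟨k1, c1⟩ := c1
    obtain ⟨k2, c2⟩ := c2
    have d0 := c1 0
    have d1 := c1 1
    have d2 := c1 2
    have f0 := c2 0
    have f1 := c2 1
    have f2 := c2 2
    simp only [count_append] at d0 d1 d2 f0 f1 f2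
    have g1 := len3 w₀
    have g2 := len3 (pick r)
    have g3 := hB r hr
    have z0 : (0 : Fin 3) ∈ w₀ := count_pos_iff.mp (by omega)
    have z2 : (2 : Fin 3) ∈ w₀ := count_pos_iff.mp (by omega)
    have hs : (replicate n 0 ++ replicate n 1 ++ replicate n 2 : List (Fin 3)).Pairwise (· ≤ ·) := by
      simp only [pairwise_append, pairwise_replicate, mem_append, mem_replicate]
      refine ⟨⟨Or.inr le_rfl, Or.inr le_rfl, ?_⟩, Or.inr le_rfl, ?_⟩
      · rintro a ⟨-, rfl⟩ b ⟨-, rfl⟩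
        decide
      · rintro a (⟨-, rfl⟩ | ⟨-, rfl⟩) b ⟨-, rfl⟩ <;> decide
    have h1 := congrArg (count (1 : Fin 3)) e
    rw [e, pairwise_append, pairwise_append] at hs
    have n1 : count (1 : Fin 3) p = 0 :=
      count_eq_zero.mpr fun h => absurd (hs.1.2.2 _ h _ z0) (by decide)
    have n2 : count (1 : Fin 3) q = 0 :=
      count_eq_zero.mpr fun h => absurd (hs.2.2 _ (mem_append_right _ z2) _ h) (by decide)
    simp [count_replicate, n1, n2] at h1
    omega

end Pool.Agent.Results.MP_709eaf_lc.Q1
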